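import Pool.Agent.Helper19.RD.Stmts8

/-! Row DIC of rd8. -/

set_option autoImplicit false

namespace Pool.Agent.Helper19.RD

open Finset Pool.Agent.Helper18.RD

theorem dic_hold {ι : Type} (s : Finset ι) (w a : ι → ℝ) (hw : ∀ i ∈ s, 0 ≤ w i) :
    (∑ i ∈ s, w i * a i) ^ 4 ≤ (∑ i ∈ s, w i) ^ 3 * ∑ i ∈ s, w i * a i ^ 4 := by
  have h1 : (∑ i ∈ s, w i * a i) ^ 2 ≤ (∑ i ∈ s, w i) * ∑ i ∈ s, w i * a i ^ 2 :=
    Finset.sum_sq_le_sum_mul_sum_of_sq_le_mul s hw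
      (fun i hi => mul_nonneg (hw i hi) (sq_nonneg _)) (fun i _ => le_of_eq (by ring))
  have h2 : (∑ i ∈ s, w i * a i ^ 2) ^ 2 ≤ (∑ i ∈ s, w i) * ∑ i ∈ s, w i * a i ^ 4 :=
    Finset.sum_sq_le_sum_mul_sum_of_sq_le_mul s hw
      (fun i hi => mul_nonneg (hw i hi) (by positivity)) (fun i _ => le_of_eq (by ring))
  have h0 : 0 ≤ ∑ i ∈ s, w i := Finset.sum_nonneg hw
  have h3 : ((∑ i ∈ s, w i * a i) ^ 2) ^ 2 ≤ ((∑ i ∈ s, w i) * ∑ i ∈ s, w i * a i ^ 2) ^ 2 :=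
    pow_le_pow_left₀ (sq_nonneg _) h1 2
  calc (∑ i ∈ s, w i * a i) ^ 4 = ((∑ i ∈ s, w i * a i) ^ 2) ^ 2 := by ring
    _ ≤ ((∑ i ∈ s, w i) * ∑ i ∈ s, w i * a i ^ 2) ^ 2 := h3
    _ = (∑ i ∈ s, w i) ^ 2 * (∑ i ∈ s, w i * a i ^ 2) ^ 2 := by ring
    _ ≤ (∑ i ∈ s, w i) ^ 2 * ((∑ i ∈ s, w i) * ∑ i ∈ s, w i * a i ^ 4) :=
        mul_le_mul_of_nonneg_left h2 (sq_nonneg _)
    _ = _ := by ring

/-- sums over tuples -/
theorem dic_pow (K : ℕ) (U : Finset ℕ) (R : ℕ → Prop) [DecidablePred R] :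
    ∑ t ∈ Fintype.piFinset (fun _ : Fin K => U), (∏ i, 1 / (t i : ℝ)) *
      (if ∀ i, R (t i) then (1 : ℝ) else 0) = (∑ p ∈ U, if R p then 1 / (p : ℝ) else 0) ^ K := by
  have h := Finset.prod_univ_sum (fun _ : Fin K => U)
    (fun (_ : Fin K) (p : ℕ) => if R p then 1 / (p : ℝ) else 0)
  rw [Finset.prod_const, Finset.card_univ, Fintype.card_fin] at h
  rw [h]
  refine Finset.sum_congr rfl fun t _ => ?_
  by_cases hR : ∀ i, R (t i)
  · rw [if_pos hR, mul_one]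
    exact Finset.prod_congr rfl fun i _ => (if_pos (hR i)).symm
  · rw [if_neg hR, mul_zero]
    rw [not_forall] at hR
    obtain ⟨i, hi⟩ := hR
    exact (Finset.prod_eq_zero (Finset.mem_univ i) (if_neg hi)).symm

theorem dic_pow1 (K : ℕ) (U : Finset ℕ) :
    ∑ t ∈ Fintype.piFinset (fun _ : Fin K => U), (∏ i, 1 / (t i : ℝ)) = VV U ^ K := by
  have h := Finset.prod_univ_sum (fun _ : Fin K => U) (fun (_ : Fin K) (p : ℕ) => 1 / (p : ℝ))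
  rw [Finset.prod_const, Finset.card_univ, Fintype.card_fin] at h
  rw [VV, h]

/-- the count of pairs -/
def dicC (J : Finset ℕ) (e : ℕ → ℕ → ℤ) {K : ℕ} (t t' : Fin K → ℕ) : Finset (ℕ × ℕ) :=
  (J ×ˢ J).filter (fun i => (∀ a, e i.1 (t a) ≠ e i.2 (t a)) ∧ ∀ a, ¬ e i.1 (t' a) ≠ e i.2 (t' a))

theorem dic_count (hL : ST_LOWG) (N q K : ℕ) (J U : Finset ℕ) (e c d : ℕ → ℕ → ℤ) (k : ℤ) (w : ℝ)
    (hK : 1 ≤ K) (hD : Dat N q J e c d k w) (hU : U ⊆ OP q) (t t' : Fin K → ℕ)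
    (ht : ∀ i, t i ∈ U) (ht' : ∀ i, t' i ∈ U) :
    ((dicC J e t t').card : ℝ) ^ 4 ≤ 4 ^ (4 * K) * ((QQ J c d (∏ i, t i) (∏ i, t' i) : ℤ) : ℝ) ^ 2 := by
  obtain ⟨Q, hQ⟩ : ∃ Q : ℤ, Q = QQ J c d (∏ i, t i) (∏ i, t' i) := ⟨_, rfl⟩
  rw [← hQ]
  let X : (Fin K → ℤ) → (Fin K → ℤ) → Finset ℕ := fun σ σ' =>
    J.filter (fun n => ∀ i, e n (t i) = σ i ∧ e n (t' i) = σ' i)
  let Y : (Fin K → ℤ) → (Fin K → ℤ) → Finset ℕ := fun σ σ' =>
    J.filter (fun n => ∀ i, e n (t i) = -σ i ∧ e n (t' i) = σ' i)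
  have hXY : ∀ σ σ', (((X σ σ').card : ℤ) * (Y σ σ').card) ^ 2 ≤ Q := by
    intro σ σ'
    rw [hQ]
    exact hL N q J e c d k w K t t' σ σ' (X σ σ') (Y σ σ') hD hK (fun i => hU (ht i))
      (fun i => hU (ht' i)) (Finset.filter_subset _ _) (Finset.filter_subset _ _)
      (fun n hn => (Finset.mem_filter.1 hn).2) (fun n hn => (Finset.mem_filter.1 hn).2)
  have hQ0 : (0 : ℤ) ≤ Q := le_trans (sq_nonneg _) (hXY (fun _ => 0) (fun _ => 0))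
  have hQ0r : (0 : ℝ) ≤ (Q : ℝ) := by exact_mod_cast hQ0
  have hXYr : ∀ σ σ', (((X σ σ').card : ℝ) * (Y σ σ').card) ≤ Real.sqrt Q := by
    intro σ σ'
    apply Real.le_sqrt_of_sq_le
    exact_mod_cast hXY σ σ'
  let Sgm : Finset (Fin K → ℤ) := Fintype.piFinset (fun _ : Fin K => ({1, -1} : Finset ℤ))
  have hcardS : (Sgm.card : ℝ) = 2 ^ K := by
    have : Sgm.card = 2 ^ K := by
      simp only [Sgm]
      rw [Fintype.card_piFinset_const]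
      rfl
    rw [this]; push_cast; rfl
  have hsub : dicC J e t t' ⊆ (Sgm ×ˢ Sgm).biUnion (fun s => X s.1 s.2 ×ˢ Y s.1 s.2) := by
    intro p hp
    rw [dicC, Finset.mem_filter, Finset.mem_product] at hp
    obtain ⟨⟨h1, h2⟩, h3, h4⟩ := hp
    rw [Finset.mem_biUnion]
    refine ⟨(fun i => e p.1 (t i), fun i => e p.1 (t' i)), ?_, ?_⟩
    · rw [Finset.mem_product, Fintype.mem_piFinset, Fintype.mem_piFinset]
      constructor
      · intro a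
        rcases hD.sgn p.1 (t a) with h | h <;> simp [h]
      · intro a
        rcases hD.sgn p.1 (t' a) with h | h <;> simp [h]
    · rw [Finset.mem_product]
      constructor
      · exact Finset.mem_filter.2 ⟨h1, fun i => ⟨rfl, rfl⟩⟩
      · refine Finset.mem_filter.2 ⟨h2, fun i => ⟨?_, ?_⟩⟩
        · have h5 := h3 i
          show e p.2 (t i) = - e p.1 (t i)
          rcases hD.sgn p.1 (t i) with h | h <;> rcases hD.sgn p.2 (t i) with h' | h' <;>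
            rw [h, h'] at h5 ⊢ <;> simp at h5 ⊢
        · have h5 := h4 i
          rw [not_not] at h5
          exact h5.symm
  have hcard : ((dicC J e t t').card : ℝ) ≤ 4 ^ K * Real.sqrt Q := by
    have h1 : (dicC J e t t').card ≤ ∑ s ∈ Sgm ×ˢ Sgm, (X s.1 s.2 ×ˢ Y s.1 s.2).card :=
      le_trans (Finset.card_le_card hsub) Finset.card_biUnion_le
    have h2 : ((dicC J e t t').card : ℝ) ≤
        ∑ s ∈ Sgm ×ˢ Sgm, (((X s.1 s.2).card : ℝ) * (Y s.1 s.2).card) := by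
      have h3 : ((dicC J e t t').card : ℝ) ≤
          ((∑ s ∈ Sgm ×ˢ Sgm, (X s.1 s.2 ×ˢ Y s.1 s.2).card : ℕ) : ℝ) := by exact_mod_cast h1
      refine h3.trans (le_of_eq ?_)
      push_cast
      exact Finset.sum_congr rfl fun s _ => by rw [Finset.card_product]; push_cast; rfl
    refine h2.trans ?_
    refine (Finset.sum_le_sum fun s _ => hXYr s.1 s.2).trans (le_of_eq ?_)
    rw [Finset.sum_const, Finset.card_product, nsmul_eq_mul]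
    push_cast
    rw [hcardS, ← mul_pow]
    norm_num
  have h4 : ((dicC J e t t').card : ℝ) ^ 4 ≤ (4 ^ K * Real.sqrt Q) ^ 4 :=
    pow_le_pow_left₀ (by positivity) hcard 4
  refine h4.trans (le_of_eq ?_)
  have h5 : Real.sqrt Q ^ 4 = (Q : ℝ) ^ 2 := by
    have : Real.sqrt Q ^ 4 = (Real.sqrt Q ^ 2) ^ 2 := by ring
    rw [this, Real.sq_sqrt hQ0r]
  rw [mul_pow, h5, ← pow_mul, mul_comm K 4]

theorem dic_edge {N q : ℕ} {J : Finset ℕ} {e c d : ℕ → ℕ → ℤ} {k : ℤ} {w : ℝ}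
    (hD : Dat N q J e c d k w) {n n' : ℕ} (hn : n ∈ J) (hn' : n' ∈ J) (hne : n ≠ n') :
    c n n' ≠ 0 ∧ |c n n'| ≤ 2 * N ∧ d n n' ≠ 0 ∧ |d n n'| ≤ 2 * N := by
  have h1 := hD.cd n hn n' hn' hne
  have h2 := Finset.mem_range.1 (hD.sub hn)
  have h3 := Finset.mem_range.1 (hD.sub hn')
  have h4 : k * ((n : ℤ) - n') ≠ 0 := by
    apply mul_ne_zero
    · rcases hD.kap with h | h <;> rw [h] <;> norm_num
    · intro h5
      apply hne
      omega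
  have h5 : |k * ((n : ℤ) - n')| ≤ 2 * N := by
    rw [abs_mul]
    have h6 : |k| ≤ 2 := by rcases hD.kap with h | h <;> rw [h] <;> norm_num
    have h7 : |(n : ℤ) - n'| ≤ N := by rw [abs_le]; constructor <;> omega
    exact mul_le_mul h6 h7 (abs_nonneg _) (by norm_num)
  rw [← h1] at h4 h5
  have hc : c n n' ≠ 0 := left_ne_zero_of_mul h4
  have hd : d n n' ≠ 0 := right_ne_zero_of_mul h4
  rw [abs_mul] at h5
  have hc1 : 1 ≤ |c n n'| := Int.one_le_abs hc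
  have hd1 : 1 ≤ |d n n'| := Int.one_le_abs hd
  refine ⟨hc, ?_, hd, ?_⟩
  · nlinarith
  · nlinarith

theorem dic_cyc {N : ℕ} {J : Finset ℕ} {c : ℕ → ℕ → ℤ}
    (h : ∀ n ∈ J, ∀ n' ∈ J, n ≠ n' → c n n' ≠ 0 ∧ |c n n'| ≤ 2 * N) {t : ℕ × ℕ × ℕ × ℕ}
    (ht : t ∈ T4 J) : cyc c t ≠ 0 ∧ |cyc c t| ≤ ((16 * N ^ 4 : ℕ) : ℤ) := by
  rw [T4, Finset.mem_filter, Finset.mem_product, Finset.mem_product, Finset.mem_product] at ht
  obtain ⟨⟨m1, m2, m3, m4⟩, n1, n2, n3, n4⟩ := ht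
  obtain ⟨a1, b1⟩ := h _ m1 _ m3 n1
  obtain ⟨a2, b2⟩ := h _ m1 _ m4 n2
  obtain ⟨a3, b3⟩ := h _ m2 _ m3 n3
  obtain ⟨a4, b4⟩ := h _ m2 _ m4 n4
  refine ⟨?_, ?_⟩
  · unfold cyc
    exact mul_ne_zero (mul_ne_zero (mul_ne_zero a1 a2) a3) a4
  · unfold cyc
    rw [abs_mul, abs_mul, abs_mul]
    have hN : (0 : ℤ) ≤ 2 * N := by positivity
    have e1 : |c t.1 t.2.2.1| * |c t.1 t.2.2.2| ≤ (2 * N) * (2 * N) :=
      mul_le_mul b1 b2 (abs_nonneg _) hN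
    have e2 : |c t.1 t.2.2.1| * |c t.1 t.2.2.2| * |c t.2.1 t.2.2.1| ≤ (2 * N) * (2 * N) * (2 * N) :=
      mul_le_mul e1 b3 (abs_nonneg _) (by positivity)
    have e3 : |c t.1 t.2.2.1| * |c t.1 t.2.2.2| * |c t.2.1 t.2.2.1| * |c t.2.1 t.2.2.2| ≤
        (2 * N) * (2 * N) * (2 * N) * (2 * N) :=
      mul_le_mul e2 b4 (abs_nonneg _) (by positivity)
    refine e3.trans (le_of_eq ?_)
    push_cast
    ring

theorem dic_T4card (J : Finset ℕ) : ((T4 J).card : ℝ) ≤ (J.card : ℝ) ^ 4 := by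
  have h : (T4 J).card ≤ J.card ^ 4 := by
    refine (Finset.card_filter_le _ _).trans (le_of_eq ?_)
    rw [Finset.card_product, Finset.card_product, Finset.card_product]
    ring
  exact_mod_cast h

open Classical in
theorem st_DIC (hL : ST_LOWG) (hW : ST_WL2) : ST_DIC := by
  intro N q K z x J U e c d k w η hN hK hz hx hD hU hzx hη hη2
  obtain ⟨P, hP⟩ : ∃ P : Finset (Fin K → ℕ), P = Fintype.piFinset (fun _ : Fin K => U) := ⟨_, rfl⟩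
  have hPm : ∀ t ∈ P, ∀ i, t i ∈ U := by
    intro t ht i
    rw [hP, Fintype.mem_piFinset] at ht
    exact ht i
  have hp0 : ∀ p ∈ U, (0 : ℝ) < 1 / (p : ℝ) := by
    intro p hp
    have h1 : 1 ≤ p := le_trans hz (hzx p hp).1
    have h2 : (0 : ℝ) < p := by exact_mod_cast h1
    positivity
  obtain ⟨Wt, hWt⟩ : ∃ Wt : (Fin K → ℕ) → ℝ, Wt = fun t => ∏ i, 1 / (t i : ℝ) := ⟨_, rfl⟩
  have hWt' : ∀ t, Wt t = ∏ i, 1 / (t i : ℝ) := fun t => by rw [hWt]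
  have hWt0 : ∀ t, 0 ≤ Wt t := by
    intro t
    rw [hWt']
    exact Finset.prod_nonneg fun i _ => by positivity
  have hV0 : 0 ≤ VV U := Finset.sum_nonneg fun p hp => (hp0 p hp).le
  have hsum1 : ∑ t ∈ P, Wt t = VV U ^ K := by
    rw [hP, hWt]; exact dic_pow1 K U
  -- the pair sum
  have hpair : ∀ i : ℕ × ℕ, ∑ s ∈ P ×ˢ P, (Wt s.1 * Wt s.2) *
      (if (∀ a, e i.1 (s.1 a) ≠ e i.2 (s.1 a)) ∧ ∀ a, ¬ e i.1 (s.2 a) ≠ e i.2 (s.2 a)
        then (1 : ℝ) else 0) = Dl U e i.1 i.2 ^ K * (VV U - Dl U e i.1 i.2) ^ K := by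
    intro i
    have h1 : (∑ p ∈ U, if e i.1 p ≠ e i.2 p then 1 / (p : ℝ) else 0) = Dl U e i.1 i.2 := by
      rw [Dl, Finset.sum_filter]
    have h2 : (∑ p ∈ U, if ¬ e i.1 p ≠ e i.2 p then 1 / (p : ℝ) else 0) =
        VV U - Dl U e i.1 i.2 := by
      rw [← h1, VV, ← Finset.sum_sub_distrib]
      refine Finset.sum_congr rfl fun p _ => ?_
      by_cases h : e i.1 p = e i.2 p
      · simp [h]
      · simp [h]
    have h3 := dic_pow K U (fun p => e i.1 p ≠ e i.2 p)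
    have h4 := dic_pow K U (fun p => ¬ e i.1 p ≠ e i.2 p)
    rw [h1] at h3
    rw [h2] at h4
    rw [← h3, ← h4, ← hP, Finset.sum_mul_sum, ← Finset.sum_product']
    refine Finset.sum_congr rfl fun s _ => ?_
    rw [hWt', hWt']
    by_cases a1 : ∀ a, e i.1 (s.1 a) ≠ e i.2 (s.1 a)
    · by_cases a2 : ∀ a, ¬ e i.1 (s.2 a) ≠ e i.2 (s.2 a)
      · rw [if_pos ⟨a1, a2⟩, if_pos a1, if_pos a2]; ring
      · rw [if_neg (fun h => a2 h.2), if_neg a2]; ring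
    · rw [if_neg (fun h => a1 h.1), if_neg a1]; ring
  have hswap : ∑ s ∈ P ×ˢ P, (Wt s.1 * Wt s.2) * ((dicC J e s.1 s.2).card : ℝ) =
      ∑ i ∈ J ×ˢ J, Dl U e i.1 i.2 ^ K * (VV U - Dl U e i.1 i.2) ^ K := by
    rw [← Finset.sum_congr rfl fun i _ => hpair i, Finset.sum_comm]
    refine Finset.sum_congr rfl fun s _ => ?_
    rw [← Finset.mul_sum]
    congr 1
    rw [dicC, Finset.card_filter]
    push_cast
    refine Finset.sum_congr rfl fun i _ => ?_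
    congr 1
  have hDl : ∀ i : ℕ × ℕ, 0 ≤ Dl U e i.1 i.2 ∧ Dl U e i.1 i.2 ≤ VV U := by
    intro i
    constructor
    · exact Finset.sum_nonneg fun p hp => (hp0 p (Finset.filter_subset _ _ hp)).le
    · exact Finset.sum_le_sum_of_subset_of_nonneg (Finset.filter_subset _ _)
        (fun p hp _ => (hp0 p hp).le)
  have hlow : ((GG J U e η).card : ℝ) * ((η / 2) ^ K * VV U ^ (2 * K)) ≤
      ∑ i ∈ J ×ˢ J, Dl U e i.1 i.2 ^ K * (VV U - Dl U e i.1 i.2) ^ K := by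
    have h1 : ∑ i ∈ GG J U e η, Dl U e i.1 i.2 ^ K * (VV U - Dl U e i.1 i.2) ^ K ≤
        ∑ i ∈ J ×ˢ J, Dl U e i.1 i.2 ^ K * (VV U - Dl U e i.1 i.2) ^ K := by
      apply Finset.sum_le_sum_of_subset_of_nonneg (Finset.filter_subset _ _)
      intro i _ _
      obtain ⟨a1, a2⟩ := hDl i
      exact mul_nonneg (pow_nonneg a1 _) (pow_nonneg (by linarith) _)
    refine le_trans ?_ h1
    rw [← nsmul_eq_mul]
    apply Finset.card_nsmul_le_sum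
    intro i hi
    rw [GG, Finset.mem_filter] at hi
    obtain ⟨_, g1, g2⟩ := hi
    rw [← mul_pow]
    have h2 : (η / 2) ^ K * VV U ^ (2 * K) = (η / 2 * VV U ^ 2) ^ K := by
      rw [mul_pow, ← pow_mul]
    rw [h2]
    apply pow_le_pow_left₀ (by positivity)
    nlinarith [mul_nonneg (sub_nonneg.2 g1) (sub_nonneg.2 g2), mul_nonneg hη.le hV0,
      mul_nonneg (mul_nonneg hη.le hV0) hV0, mul_nonneg (mul_nonneg hη.le hV0) (mul_nonneg (by linarith : (0:ℝ) ≤ 1 / 2 - η) hV0)]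
  -- Hoelder
  have hhold := dic_hold (P ×ˢ P) (fun s => Wt s.1 * Wt s.2)
    (fun s => ((dicC J e s.1 s.2).card : ℝ)) (fun s _ => mul_nonneg (hWt0 _) (hWt0 _))
  have hsum2 : ∑ s ∈ P ×ˢ P, Wt s.1 * Wt s.2 = VV U ^ (2 * K) := by
    rw [Finset.sum_product, ← Finset.sum_mul_sum, hsum1, ← pow_add]
    congr 1; ring
  have hup : ∑ s ∈ P ×ˢ P, (Wt s.1 * Wt s.2) * ((dicC J e s.1 s.2).card : ℝ) ^ 4 ≤
      4 ^ (4 * K) * ((K : ℝ) ^ (2 * K) * ((1 + K * Real.log x) ^ 2 * ((MM J c d).card : ℝ) +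
      (1 + K * Real.log x) * (2048 * (N : ℝ) ^ 8 / (z : ℝ) ^ K) * (J.card : ℝ) ^ 8)) := by
    have hcyc : ∀ t ∈ T4 J, cyc c t ≠ 0 ∧ |cyc c t| ≤ ((16 * N ^ 4 : ℕ) : ℤ) ∧ cyc d t ≠ 0 ∧
        |cyc d t| ≤ ((16 * N ^ 4 : ℕ) : ℤ) := by
      intro t ht
      obtain ⟨a1, a2⟩ := dic_cyc (N := N) (c := c) (fun n hn n' hn' hne =>
        ⟨(dic_edge hD hn hn' hne).1, (dic_edge hD hn hn' hne).2.1⟩) ht
      obtain ⟨a3, a4⟩ := dic_cyc (N := N) (c := d) (fun n hn n' hn' hne =>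
        ⟨(dic_edge hD hn hn' hne).2.2.1, (dic_edge hD hn hn' hne).2.2.2⟩) ht
      exact ⟨a1, a2, a3, a4⟩
    have hUp : ∀ p ∈ U, p.Prime ∧ p ≠ 2 ∧ z ≤ p ∧ p ≤ x := by
      intro p hp
      have h1 := hU hp
      rw [OP, Finset.mem_erase] at h1
      exact ⟨Nat.prime_of_mem_primeFactors h1.2, h1.1, hzx p hp⟩
    have h := hW (ℕ × ℕ × ℕ × ℕ) (T4 J) (cyc c) (cyc d) (16 * N ^ 4) K z x U hK hz hx hcyc hUp
    rw [← hP] at h
    have h1 : ∑ s ∈ P ×ˢ P, (Wt s.1 * Wt s.2) * ((dicC J e s.1 s.2).card : ℝ) ^ 4 ≤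
        4 ^ (4 * K) * ∑ t ∈ P, ∑ t' ∈ P, (∏ i, 1 / (t i : ℝ)) * (∏ i, 1 / (t' i : ℝ)) *
          (∑ a ∈ T4 J, (jacobiSym (cyc c a) (∏ i, t i) : ℝ) *
            (jacobiSym (cyc d a) (∏ i, t' i) : ℝ)) ^ 2 := by
      rw [Finset.sum_product, Finset.mul_sum]
      refine Finset.sum_le_sum fun t ht => ?_
      rw [Finset.mul_sum]
      refine Finset.sum_le_sum fun t' ht' => ?_
      have h2 := dic_count hL N q K J U e c d k w hK hD hU t t' (hPm t ht) (hPm t' ht')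
      have h3 : ((QQ J c d (∏ i, t i) (∏ i, t' i) : ℤ) : ℝ) =
          ∑ a ∈ T4 J, (jacobiSym (cyc c a) (∏ i, t i) : ℝ) *
            (jacobiSym (cyc d a) (∏ i, t' i) : ℝ) := by
        rw [QQ]; push_cast; rfl
      rw [h3] at h2
      rw [← hWt', ← hWt']
      calc Wt t * Wt t' * ((dicC J e t t').card : ℝ) ^ 4 ≤ Wt t * Wt t' * (4 ^ (4 * K) * (∑ a ∈ T4 J, (jacobiSym (cyc c a) (∏ i, t i) : ℝ) *
            (jacobiSym (cyc d a) (∏ i, t' i) : ℝ)) ^ 2) :=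
            mul_le_mul_of_nonneg_left h2 (mul_nonneg (hWt0 _) (hWt0 _))
        _ = _ := by ring
    refine h1.trans (mul_le_mul_of_nonneg_left (h.trans ?_) (by positivity))
    apply mul_le_mul_of_nonneg_left _ (by positivity)
    have hlx : 0 ≤ Real.log x := Real.log_nonneg (by exact_mod_cast hx)
    have h4 := dic_T4card J
    have h5 : ((T4 J).card : ℝ) ^ 2 ≤ (J.card : ℝ) ^ 8 := by
      calc ((T4 J).card : ℝ) ^ 2 ≤ ((J.card : ℝ) ^ 4) ^ 2 := pow_le_pow_left₀ (by positivity) h4 2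
        _ = _ := by ring
    have h6 : (8 * (((16 * N ^ 4 : ℕ) : ℝ)) ^ 2 / (z : ℝ) ^ K) = 2048 * (N : ℝ) ^ 8 / (z : ℝ) ^ K := by
      push_cast; ring
    rw [h6]
    have h7 : (0 : ℝ) ≤ (1 + K * Real.log x) * (2048 * (N : ℝ) ^ 8 / (z : ℝ) ^ K) := by positivity
    have h8 : (((T4 J ×ˢ T4 J).filter (fun x => IsSquare (cyc c x.1 * cyc c x.2) ∧
        IsSquare (cyc d x.1 * cyc d x.2))).card : ℝ) = ((MM J c d).card : ℝ) := by
      rw [MM]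
    have h9 := mul_le_mul_of_nonneg_left h5 h7
    rw [← h8]
    linarith
  -- conclusion
  rw [hsum2, hswap] at hhold
  have hA : (((GG J U e η).card : ℝ) * ((η / 2) ^ K * VV U ^ (2 * K))) ^ 4 ≤
      (VV U ^ (2 * K)) ^ 3 * (4 ^ (4 * K) * ((K : ℝ) ^ (2 * K) *
      ((1 + K * Real.log x) ^ 2 * ((MM J c d).card : ℝ) +
      (1 + K * Real.log x) * (2048 * (N : ℝ) ^ 8 / (z : ℝ) ^ K) * (J.card : ℝ) ^ 8))) := by
    refine (pow_le_pow_left₀ (by positivity) hlow 4).trans (hhold.trans ?_)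
    exact mul_le_mul_of_nonneg_left hup (by positivity)
  rcases hV0.eq_or_lt with hV | hV
  · rw [← hV, zero_pow (by omega), mul_zero, zero_mul]
    have hlx : 0 ≤ Real.log x := Real.log_nonneg (by exact_mod_cast hx)
    positivity
  · have hVp : 0 < (VV U ^ (2 * K)) ^ 3 := by positivity
    refine le_of_mul_le_mul_left ?_ hVp
    calc (VV U ^ (2 * K)) ^ 3 * (((GG J U e η).card : ℝ) ^ 4 * VV U ^ (2 * K) * (η / 2) ^ (4 * K)) =
        (((GG J U e η).card : ℝ) * ((η / 2) ^ K * VV U ^ (2 * K))) ^ 4 := by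
          rw [mul_pow, mul_pow, ← pow_mul (η / 2) K 4, Nat.mul_comm K 4]; ring
      _ ≤ _ := hA
      _ = _ := by ring

end Pool.Agent.Helper19.RD
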